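import Pool.Agent.P8H6.DC.Stm
import Pool.Agent.N794.DG.Near
import Pool.Agent.Y57.FD.Base
import Pool.Agent.TH894.ND2

/-!
# Project DC: the random integers obtained by changing a positive proportion of the digits of an arbitrary integer
-/

set_option autoImplicit false

namespace Pool.Agent.P8H6.DC

open Finset
open Pool.Agent.N794.DG
open Pool.Agent.Y57.FD (digit change)

theorem uniq (b : ℕ) (hb : 2 ≤ b) (L : ℕ) : ∀ x y : ℕ → ℕ, (∀ i, x i < b) → (∀ i, y i < b) →
    ∑ i ∈ range L, x i * b ^ i = ∑ i ∈ range L, y i * b ^ i → ∀ i < L, x i = y i := by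
  induction L with
  | zero =>
    intro x y _ _ _ i hi
    omega
  | succ L ih =>
    intro x y hx hy h i hi
    have e : ∀ z : ℕ → ℕ, ∑ i ∈ range (L + 1), z i * b ^ i = b * (∑ i ∈ range L, z (i + 1) * b ^ i) + z 0 := by
      intro z
      rw [sum_range_succ', pow_zero, mul_one, mul_sum]
      congr 1
      refine sum_congr rfl fun j _ => ?_
      ring
    rw [e x, e y] at h
    have h0 : x 0 = y 0 := by
      have h1 := congrArg (fun t => t % b) h
      simp only [Nat.mul_add_mod] at h1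
      rwa [Nat.mod_eq_of_lt (hx 0), Nat.mod_eq_of_lt (hy 0)] at h1
    have h2 : b * (∑ i ∈ range L, x (i + 1) * b ^ i) = b * (∑ i ∈ range L, y (i + 1) * b ^ i) := by omega
    have h3 := Nat.eq_of_mul_eq_mul_left (by omega : 0 < b) h2
    rcases Nat.eq_zero_or_pos i with hi0 | hi0
    · rw [hi0, h0]
    · have h4 : x (i - 1 + 1) = y (i - 1 + 1) := ih (fun i => x (i + 1)) (fun i => y (i + 1)) (fun i => hx _) (fun i => hy _) h3 (i - 1) (by omega)
      rwa [Nat.sub_add_cancel hi0] at h4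

theorem change_inj (b L N : ℕ) (hb : 2 ≤ b) (f : ℕ → ℕ) (hf : ∀ j, f j < b ∧ f j ≠ digit b j N) (S S' : Finset ℕ)
    (hS : S ⊆ range L) (hS' : S' ⊆ range L) (h : change b L N f S = change b L N f S') : S = S' := by
  have hx : ∀ (X : Finset ℕ) (i : ℕ), (if i ∈ X then f i else digit b i N) < b := by
    intro X i
    split_ifs
    · exact (hf i).1
    · exact Nat.mod_lt _ (by omega)
  unfold change at h
  have h1 := uniq b hb L (fun i => if i ∈ S then f i else digit b i N) (fun i => if i ∈ S' then f i else digit b i N) (hx S) (hx S') h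
  ext i
  by_cases hi : i < L
  · have h2 : (if i ∈ S then f i else digit b i N) = (if i ∈ S' then f i else digit b i N) := h1 i hi
    constructor
    · intro hiS
      by_contra hiS'
      rw [if_pos hiS, if_neg hiS'] at h2
      exact (hf i).2 h2
    · intro hiS'
      by_contra hiS
      rw [if_neg hiS, if_pos hiS'] at h2
      exact (hf i).2 h2.symm
  · constructor
    · intro hiS
      exact absurd (mem_range.1 (hS hiS)) hi
    · intro hiS
      exact absurd (mem_range.1 (hS' hiS)) hi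

theorem choose_ge (L : ℕ) : ∀ r : ℕ, 1 ≤ r → r + 1 ≤ L → L ≤ L.choose r := by
  induction L with
  | zero =>
    intro r _ h
    omega
  | succ L ih =>
    intro r hr h
    obtain ⟨s, rfl⟩ : ∃ s, r = s + 1 := ⟨r - 1, by omega⟩
    rcases Nat.lt_or_ge (s + 1) L with h1 | h1
    · have h2 := ih (s + 1) hr (by omega)
      rw [Nat.choose_succ_succ']
      have h3 : 0 < L.choose s := Nat.choose_pos (by omega)
      omega
    · have h2 : s + 1 = L := by omega
      rw [h2, Nat.choose_succ_self_right]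

theorem change_real (b L N : ℕ) (f : ℕ → ℕ) (S : Finset ℕ) (hS : S ⊆ range L) :
    (change b L N f S : ℝ) = (∑ i ∈ range L, (digit b i N : ℝ) * (b : ℝ) ^ i) + ∑ i ∈ S, (((f i : ℤ) - (digit b i N : ℤ) : ℤ) : ℝ) * (b : ℝ) ^ i := by
  unfold change
  push_cast
  have h1 : ∑ i ∈ S, ((f i : ℝ) - (digit b i N : ℝ)) * (b : ℝ) ^ i = ∑ i ∈ range L, (if i ∈ S then ((f i : ℝ) - (digit b i N : ℝ)) * (b : ℝ) ^ i else 0) := by
    rw [← sum_subset hS (fun i _ hi => if_neg hi)]
    refine sum_congr rfl fun i hi => ?_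
    rw [if_pos hi]
  rw [h1, ← sum_add_distrib]
  refine sum_congr rfl fun i _ => ?_
  split_ifs
  · ring
  · ring

theorem ex_sum {ι : Type} (s : Finset ι) (g : ι → ℝ) : ex (∑ i ∈ s, g i) = ∏ i ∈ s, ex (g i) := by
  classical
  induction s using Finset.induction_on with
  | empty =>
    rw [sum_empty, prod_empty]
    unfold ex
    simp
  | insert a s ha ih => rw [sum_insert ha, prod_insert ha, ex_add, ih]

theorem ex_ee (x : ℝ) : ex x = Pool.Agent.TH894.ND.ee x := by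
  unfold ex Pool.Agent.TH894.ND.ee
  congr 1
  push_cast
  ring

theorem always_change (hE : S_ESY) (hB : S_BLK) {Q : (ℕ →₀ ℝ) → Prop} (hQ : Always Q) (b : ℕ) (hb : 2 ≤ b) (ρ : ℝ) (hρ : 0 < ρ) (hρ1 : ρ ≤ 1 / 2)
    (R : ℕ) : ∃ L₀ : ℕ, ∀ L r : ℕ, L₀ ≤ L → ρ * L ≤ r → (r : ℝ) ≤ (1 - ρ) * L → ∀ N : ℕ, ∀ f : ℕ → ℕ, (∀ j, f j < b ∧ f j ≠ digit b j N) →
      ∀ A B : ℕ, 1 ≤ A → A ≤ R →
      Q (law (powersetCard r (range L)) (fun _ => 1 / (L.choose r : ℝ)) (fun S => B + A * change b L N f S)) := by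
  classical
  obtain ⟨Θ, hΘ, ε, hε, n₀, h⟩ := hQ
  obtain ⟨c, hc⟩ : ∃ c : ℝ, c = 1 / (4 * (b : ℝ) ^ 5) := ⟨_, rfl⟩
  have hbr : (2 : ℝ) ≤ b := by exact_mod_cast hb
  have hb5 : (1 : ℝ) ≤ (b : ℝ) ^ 5 := one_le_pow₀ (by linarith)
  have hc0 : 0 < c := by rw [hc]; positivity
  have hc1 : c ≤ 1 / 4 := by
    rw [hc]
    apply one_div_le_one_div_of_le (by norm_num)
    linarith
  have hη1 : 2 * c ^ 2 ≤ 1 := by nlinarith
  obtain ⟨m, L₁, hES⟩ := hE ρ (2 * c ^ 2) ε hρ hρ1 (by positivity) hη1 hε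
  have hk : ∀ θ : ℝ, ∀ A : ℕ, ∃ K₀ : ℕ, θ ∈ Θ → 1 ≤ A → ∀ δ : ℕ → ℤ, (∀ j, δ j ≠ 0 ∧ |δ j| < (b : ℤ)) →
      ∃ J : Finset ℕ, J.card = m ∧ (∀ i ∈ J, i + 1 < K₀) ∧ (∀ i ∈ J, ∀ i' ∈ J, i < i' → i + 1 < i') ∧
        ∀ i ∈ J, ∀ k : ℤ, 1 / (4 * (b : ℝ) ^ 5) ≤ |(δ (i + 1) : ℝ) * (b : ℝ) ^ (i + 1) * (θ * A) - (δ i : ℝ) * (b : ℝ) ^ i * (θ * A) - k| := by
    intro θ A
    by_cases h0 : θ ∈ Θ ∧ 1 ≤ A
    · have hirr : Irrational (θ * A) := (hΘ θ h0.1).mul_natCast (by omega)
      obtain ⟨K₀, hK₀⟩ := hB b hb (θ * A) hirr m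
      exact ⟨K₀, fun _ _ => hK₀⟩
    · exact ⟨0, fun h1 h2 => absurd ⟨h1, h2⟩ h0⟩
  choose K₁ hK₁ using hk
  obtain ⟨K₂, hK₂⟩ := exists_nat_ge ((n₀ : ℝ) / ε)
  obtain ⟨K₃, hK₃⟩ := exists_nat_ge (1 / ρ)
  refine ⟨L₁ + K₂ + K₃ + Θ.sup (fun θ => (range (R + 1)).sup (fun A => K₁ θ A)) + 2, fun L r hL hr hr1 N f hf A B hA1 hA2 => h _ ?_⟩
  have hLr : (2 : ℝ) ≤ L := by exact_mod_cast (by omega : 2 ≤ L)
  have hK3L : (K₃ : ℝ) ≤ L := by exact_mod_cast (by omega : K₃ ≤ L)
  have hr1' : 1 ≤ r := by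
    have h1 : 1 ≤ ρ * L := by
      have h2 : 1 / ρ ≤ L := hK₃.trans hK3L
      rwa [div_le_iff₀ hρ, mul_comm] at h2
    have : (1 : ℝ) ≤ r := h1.trans hr
    exact_mod_cast this
  have hrL : r + 1 ≤ L := by
    have h1 : 1 ≤ ρ * L := by
      have h2 : 1 / ρ ≤ L := hK₃.trans hK3L
      rwa [div_le_iff₀ hρ, mul_comm] at h2
    have : (r : ℝ) + 1 ≤ L := by nlinarith
    exact_mod_cast this
  have hCL : L ≤ L.choose r := choose_ge L r hr1' hrL
  have hC0 : (0 : ℝ) < L.choose r := by exact_mod_cast (by omega : 0 < L.choose r)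
  have hcard : (powersetCard r (range L)).card = L.choose r := by rw [card_powersetCard, card_range]
  refine law_near (fun _ _ => by positivity) (by rw [sum_const, nsmul_eq_mul, hcard, mul_one_div_cancel hC0.ne']) _ (fun θ hθ => ?_) ?_
  · obtain ⟨δ, hδ⟩ : ∃ δ : ℕ → ℤ, δ = fun j => (f j : ℤ) - (digit b j N : ℤ) := ⟨_, rfl⟩
    have hδ1 : ∀ j, δ j ≠ 0 ∧ |δ j| < (b : ℤ) := by
      intro j
      have h1 := (hf j).1
      have h2 := (hf j).2
      have h3 : digit b j N < b := Nat.mod_lt _ (by omega)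
      have e : δ j = (f j : ℤ) - (digit b j N : ℤ) := by rw [hδ]
      rw [e]
      refine ⟨fun h4 => h2 (by omega), ?_⟩
      rw [abs_lt]
      constructor <;> omega
    obtain ⟨J, hJ1, hJ2, hJ3, hJ4⟩ := hK₁ θ A hθ hA1 δ hδ1
    have hKL : K₁ θ A ≤ L := by
      have h1 : K₁ θ A ≤ (range (R + 1)).sup (fun A => K₁ θ A) := Finset.le_sup (f := fun A => K₁ θ A) (mem_range.2 (by omega))
      have h2 : (range (R + 1)).sup (fun A => K₁ θ A) ≤ Θ.sup (fun θ => (range (R + 1)).sup (fun A => K₁ θ A)) :=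
        Finset.le_sup (f := fun θ => (range (R + 1)).sup (fun A => K₁ θ A)) hθ
      omega
    have hsum := hES L r (by omega) hr hr1 (fun j => ex ((δ j : ℝ) * (b : ℝ) ^ j * (θ * A))) (fun j => (norm_ex _).le) J (by omega)
      (fun i hi => lt_of_lt_of_le (hJ2 i hi) hKL) hJ3 (fun i hi => by
        have h1 : ex ((δ i : ℝ) * (b : ℝ) ^ i * (θ * A)) + ex ((δ (i + 1) : ℝ) * (b : ℝ) ^ (i + 1) * (θ * A)) =
            ex ((δ i : ℝ) * (b : ℝ) ^ i * (θ * A)) *
              (1 + ex ((δ (i + 1) : ℝ) * (b : ℝ) ^ (i + 1) * (θ * A) - (δ i : ℝ) * (b : ℝ) ^ i * (θ * A))) := by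
          rw [mul_add, mul_one, ← ex_add]
          congr 2
          ring
        rw [h1, norm_mul, norm_ex, one_mul, ex_ee]
        refine Pool.Agent.TH894.ND.one_add_ee _ c hc0.le fun n => ?_
        rw [hc]
        exact hJ4 i hi n)
    have h4 : ∑ S ∈ powersetCard r (range L), ((1 / (L.choose r : ℝ) : ℝ) : ℂ) * ex (θ * ((B + A * change b L N f S : ℕ) : ℝ)) =
        ((1 / (L.choose r : ℝ) : ℝ) : ℂ) * (ex (θ * B + θ * A * ∑ i ∈ range L, (digit b i N : ℝ) * (b : ℝ) ^ i) *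
          ∑ S ∈ powersetCard r (range L), ∏ j ∈ S, ex ((δ j : ℝ) * (b : ℝ) ^ j * (θ * A))) := by
      rw [mul_sum, mul_sum]
      refine sum_congr rfl fun S hS => ?_
      rw [mem_powersetCard] at hS
      rw [← ex_sum, ← ex_add]
      congr 2
      push_cast
      rw [change_real b L N f S hS.1, hδ, ← sum_mul]
      ring
    rw [h4, norm_mul, norm_mul, norm_ex, one_mul, Complex.norm_real, Real.norm_of_nonneg (by positivity), one_div_mul_eq_div, div_le_iff₀ hC0]
    exact hsum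
  · rw [← sum_filter, sum_const, nsmul_eq_mul, mul_one_div, div_le_iff₀ hC0]
    have h1 : ((powersetCard r (range L)).filter fun S => B + A * change b L N f S < n₀).card ≤ n₀ := by
      have h2 : ((powersetCard r (range L)).filter fun S => B + A * change b L N f S < n₀).card ≤ (range n₀).card := by
        refine card_le_card_of_injOn (fun S => change b L N f S) ?_ ?_
        · intro S hS
          rw [mem_coe, mem_filter] at hS
          rw [mem_coe, mem_range]
          have h3 : change b L N f S ≤ A * change b L N f S := Nat.le_mul_of_pos_left _ (by omega)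
          show change b L N f S < n₀
          omega
        · intro S hS S' hS' hSS
          rw [mem_coe, mem_filter, mem_powersetCard] at hS hS'
          exact change_inj b L N hb f hf S S' hS.1.1 hS'.1.1 hSS
      rwa [card_range] at h2
    have h2 : (K₂ : ℝ) ≤ L.choose r := by exact_mod_cast (by omega : K₂ ≤ L.choose r)
    rw [div_le_iff₀ hε] at hK₂
    calc (((powersetCard r (range L)).filter fun S => B + A * change b L N f S < n₀).card : ℝ) ≤ n₀ := by exact_mod_cast h1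
      _ ≤ K₂ * ε := hK₂
      _ ≤ ε * (L.choose r : ℝ) := by
          rw [mul_comm]
          exact mul_le_mul_of_nonneg_left h2 hε.le

end Pool.Agent.P8H6.DC
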