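import Mathlib

/-!
# Project DC (helper6): Segre's conjecture for sums with a positive proportion of changed digits. Two small packages, Mathlib only.
-/

set_option autoImplicit false

namespace Pool.Agent.P8H6.DC

open Finset

/-- **ESY** (about 120 lines). Elementary symmetric sums are small if there are many pairs `i, i + 1` with `|w_i + w_(i+1)| ≤ 2 (1 - η)`.

PROOF. Put `κ = 1 - 2 ρ (1 - ρ) η < 1`, choose `m` with `2 κ ^ m ≤ ε` and then `L₀` large (depending on `m`, `ρ`). Take a subset of `J` with exactly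
`m` elements, `U = ⋃ {i, i + 1}`, `|U| = n = 2 m`, `V = range L \ U`. For a finite set `X` let `e_k(X) = ∑_{S ∈ powersetCard k X} ∏_{j∈S} w_j`
(`0` for `k > |X|`); `|e_k(V)| ≤ C(L - n, k)` since all `|w_j| ≤ 1`. For `i, i + 1 ∉ X`:
`e_k(X ∪ {i, i+1}) = e_k(X) + (w_i + w_(i+1)) e_(k-1)(X) + w_i w_(i+1) e_(k-2)(X)` (terms with negative index are `0`; Mathlib:
`Finset.powersetCard_succ_insert`, or use `Multiset.esymm`, or generating functions `∏ (1 + w_j z)` in `ℂ[X]` and `Polynomial.coeff_mul`: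
the coefficient of `z^r` of `∏_{j<L} (1 + w_j z) = P(z) Q(z)`, `P` the product over `U`, `Q` over `V`). So by induction over the pairs
`|e_r(range L)| ≤ ∑_t b_t C(L - n, r - t)`, where `∑ b_t z^t = (1 + 2 (1 - η) z + z ^ 2) ^ m` (non-negative coefficients).
Finally `C(L - n, r - t) ≤ C(L, r) (r/L)^t (1 - r/L)^(n-t) (L / (L - n))^n` for `t ≤ n` (it is `C(L,r)` times
`r (r-1) ⋯ (r-t+1) (L-r) ⋯ (L-r-(n-t)+1) / (L (L-1) ⋯ (L-n+1))`), `(L/(L-n))^n ≤ 2` for large `L`, and with `p = r / L ∈ [ρ, 1 - ρ]`: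
`∑_t b_t p^t (1-p)^(2m-t) = ((1-p)^2 + 2 (1-η) p (1-p) + p^2)^m = (1 - 2 η p (1-p))^m ≤ κ^m`. -/
def S_ESY : Prop := ∀ ρ η ε : ℝ, 0 < ρ → ρ ≤ 1 / 2 → 0 < η → η ≤ 1 → 0 < ε → ∃ m L₀ : ℕ, ∀ L r : ℕ, L₀ ≤ L → ρ * L ≤ r → (r : ℝ) ≤ (1 - ρ) * L →
  ∀ w : ℕ → ℂ, (∀ j, ‖w j‖ ≤ 1) → ∀ J : Finset ℕ, m ≤ J.card → (∀ i ∈ J, i + 1 < L) → (∀ i ∈ J, ∀ i' ∈ J, i < i' → i + 1 < i') →
    (∀ i ∈ J, ‖w i + w (i + 1)‖ ≤ 2 * (1 - η)) → ‖∑ S ∈ powersetCard r (range L), ∏ j ∈ S, w j‖ ≤ ε * (L.choose r : ℝ)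

/-- **BLK** (about 100 lines). For irrational `θ` and all sequences of non-zero digits differences the numbers `δ_i b^i θ` modulo one vary at
many places, uniformly in the sequence.

PROOF. Put `c = 1 / (4 b ^ 5)`. (1) Let `i₀` be given. The number `b^i₀ θ` is irrational, so it has a positive distance `κ` from all the numbers
`a / q` with integers `a` and `1 ≤ q ≤ b^2` (for each of the finitely many `q`: `q b^i₀ θ` is not an integer, so its distance to the nearest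
integer is positive). Choose `M` with `c / b^M < κ`. Claim: for every sequence `δ` there is an `i` in `[i₀, i₀ + M]` with
`|δ_(i+1) b^(i+1) θ - δ_i b^i θ - k| ≥ c` for all integers `k`. If not, then with `μ_i = b δ_(i+1) - δ_i`, a non-zero integer (as `|δ_i| < b`,
`δ_(i+1) ≠ 0`, so `|b δ_(i+1)| ≥ b > |δ_i|`) with `|μ_i| ≤ b^2`, there are integers `k_i` with `|μ_i b^i θ - k_i| < c`, that is
`|b^i θ - a_i| < c / |μ_i| ≤ c` with `a_i = k_i / μ_i`, for all `i` in `[i₀, i₀+M]`. Then `|b a_i - a_(i+1)| < (b + 1) c ≤ 1 / (2 b^4) * ...`; both are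
rationals with denominators `|μ_i|, |μ_(i+1)| ≤ b^2`, so that they are equal or differ by at least `1 / b^4 > (b+1) c`; hence `a_(i+1) = b a_i`,
and `b^(i₀+M) θ - a_(i₀+M) = b^M (b^i₀ θ - a_(i₀))`, so `|b^i₀ θ - a_(i₀)| < c / b^M < κ`, a contradiction (`a_(i₀)` has denominator at most `b^2`).
(2) Apply (1) to `i₀ = 0`, then to `i₀ = M(0) + 2`, and so on, `m` times (induction on `m`: `L₀(m+1) = L₀(m) + 2 + M(L₀(m)+1) + ...`); one place
is taken from each block. -/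
def S_BLK : Prop := ∀ b : ℕ, 2 ≤ b → ∀ θ : ℝ, Irrational θ → ∀ m : ℕ, ∃ L₀ : ℕ, ∀ δ : ℕ → ℤ, (∀ j, δ j ≠ 0 ∧ |δ j| < (b : ℤ)) →
  ∃ J : Finset ℕ, J.card = m ∧ (∀ i ∈ J, i + 1 < L₀) ∧ (∀ i ∈ J, ∀ i' ∈ J, i < i' → i + 1 < i') ∧
    ∀ i ∈ J, ∀ k : ℤ, 1 / (4 * (b : ℝ) ^ 5) ≤ |(δ (i + 1) : ℝ) * (b : ℝ) ^ (i + 1) * θ - (δ i : ℝ) * (b : ℝ) ^ i * θ - k|

end Pool.Agent.P8H6.DC
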